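import Mathlib

/-!
# Linear functionals of ranks: the algebra
-/

set_option autoImplicit false

open Polynomial

namespace Pool.Agent.Helper13.MR

/-- `Φ` is zero on all `G (1+X)^i X^k` of degree `T`, where `G` has degree `e`. -/
def Van (Φ : ℤ[X] →+ ℤ) (T : ℕ) (G : ℤ[X]) (e : ℕ) : Prop :=
  ∀ i k : ℕ, i + 2 * k + e = T → Φ (G * ((1 + X) ^ i * X ^ k)) = 0

variable {Φ : ℤ[X] →+ ℤ} {T : ℕ} {G G' : ℤ[X]} {e : ℕ}

lemma Van.add (h : Van Φ T G e) (h' : Van Φ T G' e) : Van Φ T (G + G') e := by
  intro i k hT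
  rw [add_mul, map_add, h i k hT, h' i k hT, add_zero]

lemma Van.sub (h : Van Φ T G e) (h' : Van Φ T G' e) : Van Φ T (G - G') e := by
  intro i k hT
  rw [sub_mul, map_sub, h i k hT, h' i k hT, sub_zero]

lemma Van.half (h : Van Φ T (G + G) e) : Van Φ T G e := by
  intro i k hT
  have h1 := h i k hT
  rw [add_mul, map_add] at h1
  omega

lemma Van.mulL (h : Van Φ T G e) : Van Φ T ((1 + X) * G) (e + 1) := by
  intro i k hT
  have h1 := h (i + 1) k (by omega)
  have h2 : (1 + X) * G * ((1 + X) ^ i * X ^ k) = G * ((1 + X) ^ (i + 1) * X ^ k) := by ring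
  rwa [h2]

lemma Van.mulU (h : Van Φ T G e) : Van Φ T (X * G) (e + 2) := by
  intro i k hT
  have h1 := h i (k + 1) (by omega)
  have h2 : X * G * ((1 + X) ^ i * X ^ k) = G * ((1 + X) ^ i * X ^ (k + 1)) := by ring
  rwa [h2]

lemma van_sym (h : Van Φ T 1 0) : ∀ N a b : ℕ, a + b = N → Van Φ T (X ^ a + X ^ b) N := by
  intro N
  induction N using Nat.strong_induction_on with
  | _ N ih =>
    have inner : ∀ a b : ℕ, a + b + 2 = N → Van Φ T (X ^ (a + 1) + X ^ (b + 1)) N := by
      intro a b hab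
      have h1 := (ih (a + b) (by omega) a b rfl).mulU
      rw [hab] at h1
      have h2 : (X : ℤ[X]) * (X ^ a + X ^ b) = X ^ (a + 1) + X ^ (b + 1) := by ring
      rwa [h2] at h1
    have side : Van Φ T (X ^ N + X ^ 0) N := by
      rcases Nat.eq_zero_or_pos N with rfl | hN
      · rw [pow_zero]
        exact h.add h
      obtain ⟨K, rfl⟩ : ∃ K, N = K + 1 := ⟨N - 1, by omega⟩
      have h1 := (ih K (by omega) K 0 rfl).mulL
      rcases Nat.eq_zero_or_pos K with rfl | hK
      · have h2 : (1 + X : ℤ[X]) * (X ^ 0 + X ^ 0) = (X ^ (0 + 1) + X ^ 0) + (X ^ (0 + 1) + X ^ 0) := by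
          ring
        rw [h2] at h1
        exact h1.half
      · obtain ⟨L, rfl⟩ : ∃ L, K = L + 1 := ⟨K - 1, by omega⟩
        have h2 := inner L 0 (by omega)
        have h3 := h1.sub h2
        have h4 : (1 + X : ℤ[X]) * (X ^ (L + 1) + X ^ 0) - (X ^ (L + 1) + X ^ (0 + 1)) =
            X ^ (L + 1 + 1) + X ^ 0 := by ring
        rwa [h4] at h3
    intro a b hab
    rcases Nat.eq_zero_or_pos b with rfl | hb
    · rw [add_zero] at hab
      subst hab
      exact side
    rcases Nat.eq_zero_or_pos a with rfl | ha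
    · rw [zero_add] at hab
      subst hab
      rw [add_comm]
      exact side
    obtain ⟨a', rfl⟩ : ∃ a', a = a' + 1 := ⟨a - 1, by omega⟩
    obtain ⟨b', rfl⟩ : ∃ b', b = b' + 1 := ⟨b - 1, by omega⟩
    exact inner a' b' (by omega)

lemma van_one (h : ∀ i k : ℕ, i + 2 * k = T → Φ ((1 + X) ^ i * (1 + X + X ^ 2) ^ k) = 0) :
    Van Φ T 1 0 := by
  have hB : ∀ k i l : ℕ, i + 2 * k + 2 * l = T →
      Φ ((1 + X) ^ i * X ^ k * (1 + X + X ^ 2) ^ l) = 0 := by
    intro k
    induction k with
    | zero =>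
      intro i l hT
      rw [pow_zero, mul_one]
      exact h i l (by omega)
    | succ k ih =>
      intro i l hT
      have h1 := ih (i + 2) l (by omega)
      have h2 := ih i (l + 1) (by omega)
      have h3 : (1 + X : ℤ[X]) ^ i * X ^ (k + 1) * (1 + X + X ^ 2) ^ l =
          (1 + X) ^ (i + 2) * X ^ k * (1 + X + X ^ 2) ^ l -
            (1 + X) ^ i * X ^ k * (1 + X + X ^ 2) ^ (l + 1) := by ring
      rw [h3, map_sub, h1, h2, sub_zero]
  intro i k hT
  have h1 := hB k i 0 (by omega)
  rw [pow_zero, mul_one] at h1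
  rwa [one_mul]

/-- The shift. -/
def shift : (ℤ → ℤ) →ₗ[ℤ] (ℤ → ℤ) where
  toFun f x := f (x - 1)
  map_add' f g := rfl
  map_smul' c f := rfl

lemma shift_pow (n : ℕ) (f : ℤ → ℤ) (x : ℤ) : (shift ^ n) f x = f (x - n) := by
  induction n generalizing x with
  | zero => simp
  | succ n ih =>
    rw [pow_succ', Module.End.mul_apply]
    change (shift ^ n) f (x - 1) = _
    rw [ih]
    push_cast
    ring_nf

/-- The linear combination with the coefficients `c` of the values. -/
noncomputable def lin (c : ℤ →₀ ℤ) : (ℤ → ℤ) →+ ℤ where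
  toFun f := c.sum fun x z => z * f x
  map_zero' := by simp
  map_add' f g := by
    rw [← Finsupp.sum_add]
    refine Finsupp.sum_congr fun x _ => ?_
    rw [Pi.add_apply, mul_add]

lemma lin_apply (c : ℤ →₀ ℤ) (f : ℤ → ℤ) : lin c f = c.sum fun x z => z * f x := rfl

/-- The functional of the polynomials. -/
noncomputable def Fun (c : ℤ →₀ ℤ) (f : ℤ → ℤ) : ℤ[X] →+ ℤ :=
  (lin c).comp ((LinearMap.applyₗ f).toAddMonoidHom.comp (aeval shift).toAddMonoidHom)

lemma fun_apply (c : ℤ →₀ ℤ) (f : ℤ → ℤ) (p : ℤ[X]) : Fun c f p = lin c (aeval shift p f) := rfl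

/-- The coefficients of the combination are in codimensions `w ≤ x ≤ n - w`. -/
def InBox (w n : ℤ) (c : ℤ →₀ ℤ) : Prop := ∀ x, c x ≠ 0 → w ≤ x ∧ x + w ≤ n

/-- **Core.** -/
lemma core (f : ℤ → ℤ) (w : ℤ) (T : ℕ) (dual : ∀ x, f x = f (w - x)) (neg : ∀ x, x < 0 → f x = 0)
    (c : ℤ →₀ ℤ) (box : InBox w (w + T) c) (hc : ∃ x, c x + c (w + T - x) ≠ 0)
    (h : ∀ i k : ℕ, i + 2 * k = T →
      lin c (aeval shift ((1 + X : ℤ[X]) ^ i * (1 + X + X ^ 2) ^ k) f) = 0) : ∀ x, f x = 0 := by
  by_contra hcon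
  push Not at hcon
  -- the symmetrisation
  set cs : ℤ → ℤ := fun x => c x + c (w + T - x) with hcs
  have bcs : ∀ x, cs x ≠ 0 → w ≤ x ∧ x + w ≤ w + T := by
    intro x hx
    by_contra hn
    apply hx
    have h1 : c x = 0 := by
      by_contra h2
      exact hn (box x h2)
    have h2 : c (w + T - x) = 0 := by
      by_contra h2
      have := box _ h2
      exact hn (by omega)
    change c x + c (w + T - x) = 0
    rw [h1, h2, add_zero]
  obtain ⟨w0, hw0, hwmax⟩ := Int.exists_greatest_of_bdd (P := fun x => cs x ≠ 0)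
    ⟨T, fun x hx => by have := bcs x hx; omega⟩ hc
  obtain ⟨z0, hz0, hzmin⟩ := Int.exists_least_of_bdd (P := fun x => f x ≠ 0)
    ⟨0, fun x hx => by by_contra h1; exact hx (neg x (by omega))⟩ hcon
  have b1 := bcs w0 hw0
  have b2 : 0 ≤ z0 := by by_contra h1; exact hz0 (neg z0 (by omega))
  have b3 : z0 ≤ w := by
    by_contra h1
    exact hz0 (by rw [dual]; exact neg _ (by omega))
  obtain ⟨a, ha⟩ : ∃ a : ℕ, (a : ℤ) = w0 - z0 := ⟨(w0 - z0).toNat, by omega⟩
  obtain ⟨b, hb⟩ : ∃ b : ℕ, a + b = T := ⟨T - a, by omega⟩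
  have h1 := van_sym (van_one (Φ := Fun c f) (T := T) h) T a b hb 0 0 (by omega)
  rw [pow_zero, pow_zero, mul_one, mul_one, fun_apply, map_add, map_pow, map_pow, aeval_X] at h1
  rw [LinearMap.add_apply, map_add, lin_apply, lin_apply] at h1
  have e1 : (c.sum fun x z => z * (shift ^ a) f x) = c.sum fun x z => z * f (x - a) :=
    Finsupp.sum_congr fun x _ => by rw [shift_pow]
  have e2 : (c.sum fun x z => z * (shift ^ b) f x) = c.sum fun x z => z * f (w + T - x - a) :=
    Finsupp.sum_congr fun x _ => by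
      rw [shift_pow, dual]
      congr 2
      have : (a : ℤ) + b = T := by exact_mod_cast hb
      omega
  rw [e1, e2] at h1
  -- only one term of each sum
  have s1 : (c.sum fun x z => z * f (x - a)) + (c.sum fun x z => z * f (w + T - x - a)) =
      cs w0 * f z0 := by
    have inj : Function.Injective (fun x : ℤ => w + T - x) := fun x y hxy => by
      simp only at hxy; omega
    have f1 : (c.sum fun x z => z * f (w + T - x - a)) =
        (c.mapDomain fun x => w + T - x).sum fun x z => z * f (x - a) := by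
      rw [Finsupp.sum_mapDomain_index (by simp) (by intro x y z; ring)]
    rw [f1, ← Finsupp.sum_add_index' (by simp) (by intro x y z; ring)]
    have f2 : ∀ x, (c + c.mapDomain fun x => w + T - x) x = cs x := by
      intro x
      rw [Finsupp.add_apply]
      have := Finsupp.mapDomain_apply inj c (w + T - x)
      simp only [sub_sub_cancel] at this
      rw [this]
    have f3 : (a : ℤ) = w0 - z0 := ha
    rw [Finsupp.sum, Finset.sum_eq_single w0]
    · rw [f2, f3, sub_sub_cancel]
    · intro x hx hne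
      rw [f2]
      rcases lt_or_gt_of_ne hne with h2 | h2
      · have : f (x - a) = 0 := by
          by_contra h3
          have := hzmin _ h3
          omega
        rw [this, mul_zero]
      · have : cs x = 0 := by
          by_contra h3
          have := hwmax _ h3
          omega
        rw [this, zero_mul]
    · intro h2
      rw [Finsupp.notMem_support_iff] at h2
      rw [h2, zero_mul]
  rw [s1] at h1
  rcases mul_eq_zero.mp h1 with h2 | h2
  · exact hw0 h2
  · exact hz0 h2

end Pool.Agent.Helper13.MR
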