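import Mathlib

/-!
# Semisimple categories: dimensions of the spaces of morphisms
-/

set_option autoImplicit false

open CategoryTheory CategoryTheory.Limits

namespace Pool.Agent.Helper13.MR

universe v u

variable {N : Type u} [Category.{v} N] [Preadditive N] [Linear ℚ N]

/-- The dimension of the space of morphisms. -/
noncomputable def hd (A B : N) : ℕ := Module.finrank ℚ (A ⟶ B)

/-- The category is semisimple with finite-dimensional spaces of morphisms: if there is a nonzero morphism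
`A ⟶ B` then `A` and `B` have a nonzero common direct summand. -/
structure IsSemisimple (N : Type u) [Category.{v} N] [Preadditive N] [Linear ℚ N]
    [HasBinaryBiproducts N] : Prop where
  fin : ∀ A B : N, FiniteDimensional ℚ (A ⟶ B)
  split : ∀ (A B : N) (f : A ⟶ B), f ≠ 0 → ∃ I K L : N, ¬ IsZero I ∧ Nonempty (A ≅ I ⊞ K) ∧
    Nonempty (B ≅ I ⊞ L)

lemma hd_iso {A A' B B' : N} (e : A ≅ A') (f : B ≅ B') : hd A B = hd A' B' :=
  (Linear.homCongr ℚ e f).finrank_eq

variable [HasBinaryBiproducts N]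

lemma hd_left (h : IsSemisimple N) (A B C : N) : hd (A ⊞ B) C = hd A C + hd B C := by
  have := h.fin A C
  have := h.fin B C
  let e : (A ⊞ B ⟶ C) ≃ₗ[ℚ] (A ⟶ C) × (B ⟶ C) :=
    { toFun := fun f => (biprod.inl ≫ f, biprod.inr ≫ f)
      invFun := fun p => biprod.desc p.1 p.2
      map_add' := fun f g => by simp
      map_smul' := fun c f => by simp
      left_inv := fun f => by
        apply biprod.hom_ext' <;> simp
      right_inv := fun p => by simp }
  unfold hd
  rw [e.finrank_eq, Module.finrank_prod]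

lemma hd_right (h : IsSemisimple N) (A B C : N) : hd A (B ⊞ C) = hd A B + hd A C := by
  have := h.fin A B
  have := h.fin A C
  let e : (A ⟶ B ⊞ C) ≃ₗ[ℚ] (A ⟶ B) × (A ⟶ C) :=
    { toFun := fun f => (f ≫ biprod.fst, f ≫ biprod.snd)
      invFun := fun p => biprod.lift p.1 p.2
      map_add' := fun f g => by simp
      map_smul' := fun c f => by simp
      left_inv := fun f => by
        apply biprod.hom_ext <;> simp
      right_inv := fun p => by simp }
  unfold hd
  rw [e.finrank_eq, Module.finrank_prod]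

lemma isZero_of_hd (h : IsSemisimple N) {A : N} (hA : hd A A = 0) : IsZero A := by
  have := h.fin A A
  rw [IsZero.iff_id_eq_zero]
  have h1 : Subsingleton (A ⟶ A) := Module.finrank_zero_iff.mp hA
  exact Subsingleton.elim _ _

lemma zero_of_hd (h : IsSemisimple N) {A B : N} (hA : ∀ f : A ⟶ B, f = 0) : hd A B = 0 := by
  have := h.fin A B
  have h1 : Subsingleton (A ⟶ B) := ⟨fun f g => by rw [hA f, hA g]⟩
  exact Module.finrank_zero_of_subsingleton

/-- **The inequality.** -/
lemma key (h : IsSemisimple N) : ∀ (n : ℕ) (A B : N), hd A A + hd B B ≤ n →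
    hd A B + hd B A ≤ hd A A + hd B B ∧
      (hd A B + hd B A = hd A A + hd B B → Nonempty (A ≅ B)) := by
  intro n
  induction n using Nat.strong_induction_on with
  | _ n ih =>
    intro A B hn
    have step : ∀ I K L : N, ¬ IsZero I → Nonempty (A ≅ I ⊞ K) → Nonempty (B ≅ I ⊞ L) →
        hd A B + hd B A ≤ hd A A + hd B B ∧
          (hd A B + hd B A = hd A A + hd B B → Nonempty (A ≅ B)) := by
      rintro I K L hI ⟨e⟩ ⟨f⟩
      have h1 : 0 < hd I I := Nat.pos_of_ne_zero fun h0 => hI (isZero_of_hd h h0)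
      have eAA := hd_iso e e
      have eBB := hd_iso f f
      have eAB := hd_iso e f
      have eBA := hd_iso f e
      rw [hd_left h, hd_right h, hd_right h] at eAA eBB eAB eBA
      obtain ⟨h2, h3⟩ := ih (hd K K + hd L L) (by omega) K L le_rfl
      refine ⟨by omega, fun h4 => ?_⟩
      obtain ⟨g⟩ := h3 (by omega)
      exact ⟨e ≪≫ biprod.mapIso (Iso.refl I) g ≪≫ f.symm⟩
    by_cases h1 : ∃ f : A ⟶ B, f ≠ 0
    · obtain ⟨f, hf⟩ := h1
      obtain ⟨I, K, L, hI, eK, eL⟩ := h.split A B f hf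
      exact step I K L hI eK eL
    by_cases h2 : ∃ f : B ⟶ A, f ≠ 0
    · obtain ⟨f, hf⟩ := h2
      obtain ⟨I, K, L, hI, eK, eL⟩ := h.split B A f hf
      exact step I L K hI eL eK
    push Not at h1 h2
    have e1 := zero_of_hd h h1
    have e2 := zero_of_hd h h2
    refine ⟨by omega, fun h3 => ?_⟩
    exact ⟨(isZero_of_hd h (by omega)).iso (isZero_of_hd h (by omega))⟩

variable {C : Type*} [Category C] [Preadditive C]

/-- Every endomorphism of `A` which is mapped to zero is nilpotent. -/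
def NilKernel (Q : C ⥤ N) (A : C) : Prop := ∀ f : End A, Q.map f = 0 → IsNilpotent f

lemma isIso_of (Q : C ⥤ N) [Q.Additive] {A : C} (hA : NilKernel Q A) (f : End A)
    (hf : Q.map f = 𝟙 (Q.obj A)) : IsIso f := by
  have h2 : IsNilpotent (f - 1) := hA (f - 1) (by
    have h3 : Q.map (f - 1 : End A) = Q.map f - Q.map (𝟙 A) := Q.map_sub
    rw [h3, hf, CategoryTheory.Functor.map_id, sub_self])
  have h3 := h2.isUnit_one_add
  rw [add_sub_cancel] at h3
  exact (isUnit_iff_isIso f).mp h3

/-- Isomorphisms lift. -/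
lemma lift_iso (Q : C ⥤ N) [Q.Additive] [Q.Full] {A B : C} (hA : NilKernel Q A)
    (hB : NilKernel Q B) (e : Q.obj A ≅ Q.obj B) : Nonempty (A ≅ B) := by
  obtain ⟨u, hu⟩ := Q.map_surjective e.hom
  obtain ⟨v, hv⟩ := Q.map_surjective e.inv
  have i1 : IsIso (u ≫ v) := isIso_of Q hA (u ≫ v) (by
    rw [CategoryTheory.Functor.map_comp, hu, hv, e.hom_inv_id])
  have i2 : IsIso (v ≫ u) := isIso_of Q hB (v ≫ u) (by
    rw [CategoryTheory.Functor.map_comp, hu, hv, e.inv_hom_id])
  have s1 : IsSplitMono u := ⟨⟨⟨v ≫ inv (u ≫ v), by rw [← Category.assoc]; exact IsIso.hom_inv_id _⟩⟩⟩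
  have s2 : IsSplitEpi u := ⟨⟨⟨inv (v ≫ u) ≫ v, by rw [Category.assoc]; exact IsIso.inv_hom_id _⟩⟩⟩
  have : IsIso u := isIso_of_mono_of_isSplitEpi u
  exact ⟨asIso u⟩

end Pool.Agent.Helper13.MR
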