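import Pool.Agent.Helper13.MR.Cat
import Pool.Agent.Helper13.MR.Alg
import Pool.Agent.Helper13.IH.Geo

/-!
# Ranks of the groups of cycles of middle dimension and numerical motives
-/

set_option autoImplicit false

open CategoryTheory CategoryTheory.Limits

namespace Pool.Agent.Helper13.MR

universe v₁ u₁ v₂ u₂

/-- Nonsingular projective varieties (the elements of `V`, with their products) over a field `k`:
`dim` the dimension; `deq X Y`: `X` and `Y` are derived equivalent; `chow X` the Chow motive `h(X)`, an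
object of the category `C` of Chow motives with rational coefficients; `Q` the functor from `C` to the
category `N` of motives modulo numerical equivalence; `cyc X i` the rank of the group of algebraic cycles of
codimension `i` on `X` modulo numerical equivalence; `b X` the sum of the `ℓ`-adic Betti numbers. -/
structure MotiveData (V : Type) (C : Type u₁) [Category.{v₁} C] (N : Type u₂) [Category.{v₂} N] where
  dim : V → ℕ
  deq : V → V → Prop
  chow : V → C
  Q : C ⥤ N
  cyc : V → ℤ → ℕ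
  b : V → ℕ

variable {V : Type} [CommMonoid V] {C : Type u₁} [Category.{v₁} C] [Preadditive C]
  {N : Type u₂} [Category.{v₂} N] [Preadditive N] [Linear ℚ N] [HasBinaryBiproducts N]

/-- The known properties. `line` is the projective line, with motive `1 + L`, and `blow n` the projective
plane blown up in `n` points, with motive `1 + (n+1) L + L^2`. -/
structure IsMotives (D : MotiveData V C N) (line : V) (blow : ℕ → V) : Prop where
  /-- Jannsen's theorem. -/
  semisimple : IsSemisimple N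
  additive : D.Q.Additive
  full : D.Q.Full
  /-- The morphisms `h(X) ⟶ h(Y)` are the cycles on `X × Y` of codimension `dim X = dim Y`. -/
  homs : ∀ X Y, D.dim X = D.dim Y →
    hd (D.Q.obj (D.chow X)) (D.Q.obj (D.chow Y)) = D.cyc (X * Y) (D.dim X)
  /-- The cycles of codimension `i` are the morphisms from the `i`-th power of the Lefschetz motive. -/
  cycles : ∀ i : ℤ, ∃ T : N, ∀ W, hd T (D.Q.obj (D.chow W)) = D.cyc W i
  dim_mul : ∀ X Y, D.dim (X * Y) = D.dim X + D.dim Y
  deq_dim : ∀ X Y, D.deq X Y → D.dim X = D.dim Y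
  deq_symm : ∀ X Y, D.deq X Y → D.deq Y X
  deq_mul : ∀ X Y Z, D.deq X Y → D.deq (X * Z) (Y * Z)
  /-- Cycles of complementary dimension are dual to each other. -/
  dual : ∀ X i, D.cyc X i = D.cyc X (D.dim X - i)
  neg : ∀ X i, i < 0 → D.cyc X i = 0
  line_dim : D.dim line = 1
  line_cyc : ∀ W i, D.cyc (W * line) i = D.cyc W i + D.cyc W (i - 1)
  blow_dim : ∀ n, D.dim (blow n) = 2
  blow_cyc : ∀ n W i, D.cyc (W * blow n) i = D.cyc W i + (n + 1) * D.cyc W (i - 1) + D.cyc W (i - 2)
  blow_b : ∀ n W, D.b (W * blow n) = (n + 3) * D.b W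

/-- `X` and `Y` have isomorphic motives modulo numerical equivalence. -/
def NumIso (D : MotiveData V C N) (X Y : V) : Prop := Nonempty (D.Q.obj (D.chow X) ≅ D.Q.obj (D.chow Y))

/-- Derived equivalent varieties of the class have the same ranks of cycles in all codimensions. -/
def AllRanks (D : MotiveData V C N) (𝒞 : Set V) : Prop :=
  ∀ X ∈ 𝒞, ∀ Y ∈ 𝒞, D.deq X Y → ∀ i, D.cyc X i = D.cyc Y i

/-- Derived equivalent varieties of the class, of dimension `2m`, have the same rank of cycles of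
codimension `m`. -/
def MiddleRank (D : MotiveData V C N) (𝒞 : Set V) (m : ℕ) : Prop :=
  ∀ X ∈ 𝒞, ∀ Y ∈ 𝒞, D.deq X Y → D.dim X = 2 * m → D.cyc X m = D.cyc Y m

/-- For derived equivalent varieties of the class, of dimension `2m`, the ranks of cycles of codimension `m`
differ by `o(b)`, where `b` is the sum of the Betti numbers. -/
def MiddleRankApprox (D : MotiveData V C N) (𝒞 : Set V) (m : ℕ) : Prop :=
  ∀ ε : ℝ, 0 < ε → ∃ K : ℝ, ∀ X ∈ 𝒞, ∀ Y ∈ 𝒞, D.deq X Y → D.dim X = 2 * m →
    |(D.cyc X m : ℝ) - D.cyc Y m| ≤ ε * D.b X + K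

variable {D : MotiveData V C N} {line : V} {blow : ℕ → V}

/-- The inequality for the middle ranks of the products. -/
lemma middle (h : IsMotives D line blow) {X Y : V} (hd : D.dim X = D.dim Y) :
    2 * D.cyc (X * Y) (D.dim X) ≤ D.cyc (X * X) (D.dim X) + D.cyc (Y * Y) (D.dim Y) ∧
      (2 * D.cyc (X * Y) (D.dim X) = D.cyc (X * X) (D.dim X) + D.cyc (Y * Y) (D.dim Y) ↔
        NumIso D X Y) := by
  have e1 := h.homs X X rfl
  have e2 := h.homs Y Y rfl
  have e3 := h.homs X Y hd
  have e4 := h.homs Y X hd.symm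
  rw [mul_comm Y X, ← hd] at e4
  obtain ⟨k1, k2⟩ := key h.semisimple _ (D.Q.obj (D.chow X)) (D.Q.obj (D.chow Y)) le_rfl
  refine ⟨by omega, fun h1 => k2 (by omega), ?_⟩
  rintro ⟨e⟩
  have f1 := hd_iso (Iso.refl (D.Q.obj (D.chow X))) e
  have f2 := hd_iso e (Iso.refl (D.Q.obj (D.chow Y)))
  omega

lemma all_of_iso (h : IsMotives D line blow) {X Y : V} (e : NumIso D X Y) (i : ℤ) :
    D.cyc X i = D.cyc Y i := by
  obtain ⟨T, hT⟩ := h.cycles i
  obtain ⟨e⟩ := e
  rw [← hT X, ← hT Y]
  exact hd_iso (Iso.refl T) e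

lemma cast_mid (h : IsMotives D line blow) (W : V) (n m : ℕ) :
    D.cyc (W * blow n) ((m + 1 : ℕ) : ℤ) = D.cyc W (m + 1 : ℤ) + (n + 1) * D.cyc W m +
      D.cyc W (m - 1 : ℤ) := by
  rw [h.blow_cyc]
  push_cast
  have e1 : ((m : ℤ) + 1 - 1) = m := by ring
  have e2 : ((m : ℤ) + 1 - 2) = m - 1 := by ring
  rw [e1, e2]

/-- From dimension `2m+2` to dimension `2m`. -/
lemma down (h : IsMotives D line blow) {𝒞 : Set V} (hb : ∀ X ∈ 𝒞, ∀ n, X * blow n ∈ 𝒞) {m : ℕ}
    (ha : MiddleRankApprox D 𝒞 (m + 1)) : MiddleRank D 𝒞 m := by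
  intro X hX Y hY hXY hdim
  have key := IH.zero_of_lin
    (((D.cyc X (m + 1 : ℤ) : ℤ) - D.cyc Y (m + 1 : ℤ)) + ((D.cyc X m : ℤ) - D.cyc Y m) +
      ((D.cyc X (m - 1 : ℤ) : ℤ) - D.cyc Y (m - 1 : ℤ)))
    ((D.cyc X m : ℤ) - D.cyc Y m) (3 * D.b X) (D.b X) (by
      intro ε hε
      obtain ⟨K, hK⟩ := ha ε hε
      refine ⟨K, fun g => ?_⟩
      have h1 := hK (X * blow g) (hb X hX g) (Y * blow g) (hb Y hY g) (h.deq_mul _ _ _ hXY)
        (by rw [h.dim_mul, h.blow_dim, hdim]; ring)
      rw [cast_mid h, cast_mid h, h.blow_b] at h1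
      push_cast at h1 ⊢
      have e1 : (D.cyc X (m + 1 : ℤ) : ℝ) - D.cyc Y (m + 1 : ℤ) + ((D.cyc X m : ℝ) - D.cyc Y m) +
          ((D.cyc X (m - 1 : ℤ) : ℝ) - D.cyc Y (m - 1 : ℤ)) + g * ((D.cyc X m : ℝ) - D.cyc Y m) =
          D.cyc X (m + 1 : ℤ) + (g + 1) * D.cyc X m + D.cyc X (m - 1 : ℤ) -
            (D.cyc Y (m + 1 : ℤ) + (g + 1) * D.cyc Y m + D.cyc Y (m - 1 : ℤ)) := by ring
      have e2 : ε * (3 * (D.b X : ℝ) + g * D.b X) + K = ε * ((g + 3) * D.b X) + K := by ring
      rw [e1, e2]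
      exact h1)
  omega

lemma approx_of_exact {𝒞 : Set V} {m : ℕ} (h : MiddleRank D 𝒞 m) : MiddleRankApprox D 𝒞 m := by
  intro ε hε
  refine ⟨0, fun X hX Y hY hXY hd => ?_⟩
  rw [h X hX Y hY hXY hd, sub_self, abs_zero]
  positivity

lemma down_all (h : IsMotives D line blow) {𝒞 : Set V} (hb : ∀ X ∈ 𝒞, ∀ n, X * blow n ∈ 𝒞) {m : ℕ} :
    ∀ t : ℕ, MiddleRankApprox D 𝒞 (m + t + 1) → MiddleRank D 𝒞 m := by
  intro t
  induction t with
  | zero => exact fun h1 => down h hb h1
  | succ t ih =>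
    intro h1
    exact ih (approx_of_exact (down h hb (by rw [show m + t + 1 + 1 = m + (t + 1) + 1 by ring]; exact h1)))

/-- The ranks of the middle-dimensional cycles on the products determine the numerical motives. -/
lemma num_of (h : IsMotives D line blow) {X Y : V} (hXY : D.deq X Y)
    (h1 : D.cyc (X * X) (D.dim X) ≤ D.cyc (X * Y) (D.dim X))
    (h2 : D.cyc (Y * Y) (D.dim Y) ≤ D.cyc (Y * X) (D.dim Y)) : NumIso D X Y := by
  have hd := h.deq_dim X Y hXY
  obtain ⟨k1, k2⟩ := middle h hd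
  rw [mul_comm Y X, ← hd] at h2
  rw [← hd] at k1 k2
  exact k2.mp (by omega)

lemma cyc_of_middle (h : IsMotives D line blow) {𝒞 : Set V} (hm : ∀ X ∈ 𝒞, ∀ Y ∈ 𝒞, X * Y ∈ 𝒞)
    {X Y : V} (hall : MiddleRank D 𝒞 (D.dim X)) (hX : X ∈ 𝒞) (hY : Y ∈ 𝒞) (hXY : D.deq X Y) :
    D.cyc (X * X) (D.dim X) = D.cyc (X * Y) (D.dim X) := by
  have h1 : D.deq (X * X) (X * Y) := by
    rw [mul_comm X Y]
    exact h.deq_mul X Y X hXY
  exact hall (X * X) (hm X hX X hX) (X * Y) (hm X hX Y hY) h1
    (by rw [h.dim_mul]; ring)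

/-- The ranks of the groups of cycles of `W`. -/
def ranks (D : MotiveData V C N) (W : V) : ℤ → ℤ := fun i => D.cyc W i

/-- The linear combination `∑ c_i rank N^i(W)`. -/
noncomputable def comb (D : MotiveData V C N) (c : ℤ →₀ ℤ) (W : V) : ℤ :=
  c.sum fun i z => z * D.cyc W i

/-- The values of the combination for derived equivalent varieties of the class, of dimension `n`, are
equal. -/
def CombInvar (D : MotiveData V C N) (𝒞 : Set V) (n : ℕ) (c : ℤ →₀ ℤ) : Prop :=
  ∀ X ∈ 𝒞, ∀ Y ∈ 𝒞, D.deq X Y → D.dim X = n → comb D c X = comb D c Y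

/-- For derived equivalent varieties of the class, of dimension `n`, the values of the combination differ
by `o(b)`, where `b` is the sum of the Betti numbers. -/
def CombApprox (D : MotiveData V C N) (𝒞 : Set V) (n : ℕ) (c : ℤ →₀ ℤ) : Prop :=
  ∀ ε : ℝ, 0 < ε → ∃ K : ℝ, ∀ X ∈ 𝒞, ∀ Y ∈ 𝒞, D.deq X Y → D.dim X = n →
    |((comb D c X - comb D c Y : ℤ) : ℝ)| ≤ ε * D.b X + K

lemma comb_eq (c : ℤ →₀ ℤ) (W : V) : comb D c W = lin c (ranks D W) := rfl

lemma shift_apply (f : ℤ → ℤ) (x : ℤ) : shift f x = f (x - 1) := rfl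

open Polynomial in
lemma ranks_line (h : IsMotives D line blow) (W : V) :
    ranks D (W * line) = aeval shift (1 + X : ℤ[X]) (ranks D W) := by
  rw [map_add, map_one, aeval_X]
  funext x
  change (D.cyc (W * line) x : ℤ) = (D.cyc W x : ℤ) + D.cyc W (x - 1)
  rw [h.line_cyc]
  push_cast
  ring

open Polynomial in
lemma ranks_blow (h : IsMotives D line blow) (W : V) (n : ℕ) :
    ranks D (W * blow n) = ranks D W + ((n : ℤ) + 1) • shift (ranks D W) +
      shift (shift (ranks D W)) := by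
  funext x
  change (D.cyc (W * blow n) x : ℤ) = (D.cyc W x : ℤ) + ((n : ℤ) + 1) * D.cyc W (x - 1) +
    D.cyc W (x - 1 - 1)
  rw [h.blow_cyc, sub_sub, one_add_one_eq_two]
  push_cast
  ring

open Polynomial in
lemma ranks_plane (h : IsMotives D line blow) (W : V) :
    ranks D (W * blow 0) = aeval shift (1 + X + X ^ 2 : ℤ[X]) (ranks D W) := by
  rw [ranks_blow h, map_add, map_add, map_one, map_pow, aeval_X]
  simp [pow_two]

open Polynomial in
lemma ranks_prod (h : IsMotives D line blow) (W : V) (i k : ℕ) :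
    ranks D (W * line ^ i * blow 0 ^ k) =
      aeval shift ((1 + X : ℤ[X]) ^ i * (1 + X + X ^ 2) ^ k) (ranks D W) := by
  induction k with
  | zero =>
    rw [pow_zero, pow_zero, mul_one, mul_one]
    induction i with
    | zero => simp
    | succ i ih =>
      rw [pow_succ, ← mul_assoc, ranks_line h, ih, ← Module.End.mul_apply, ← map_mul, pow_succ,
        mul_comm (1 + X : ℤ[X])]
  | succ k ih =>
    rw [pow_succ, ← mul_assoc, ranks_plane h, ih, ← Module.End.mul_apply, ← map_mul]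
    congr 2
    ring

lemma dim_prod (h : IsMotives D line blow) (W : V) (i k : ℕ) :
    D.dim (W * line ^ i * blow 0 ^ k) = D.dim W + i + 2 * k := by
  induction k with
  | zero =>
    rw [pow_zero, mul_one]
    induction i with
    | zero => simp
    | succ i ih =>
      rw [pow_succ, ← mul_assoc, h.dim_mul, ih, h.line_dim]
      ring
  | succ k ih =>
    rw [pow_succ, ← mul_assoc, h.dim_mul, ih, h.blow_dim]
    ring

lemma mem_prod {𝒞 : Set V} (hl : ∀ X ∈ 𝒞, X * line ∈ 𝒞) (hb : ∀ X ∈ 𝒞, ∀ n, X * blow n ∈ 𝒞)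
    {W : V} (hW : W ∈ 𝒞) (i k : ℕ) : W * line ^ i * blow 0 ^ k ∈ 𝒞 := by
  induction k with
  | zero =>
    rw [pow_zero, mul_one]
    induction i with
    | zero => simpa using hW
    | succ i ih =>
      rw [pow_succ, ← mul_assoc]
      exact hl _ ih
  | succ k ih =>
    rw [pow_succ, ← mul_assoc]
    exact hb _ ih 0

/-- An exactly invariant combination. -/
lemma comb_exact (h : IsMotives D line blow) {𝒞 : Set V} (hl : ∀ X ∈ 𝒞, X * line ∈ 𝒞)
    (hb : ∀ X ∈ 𝒞, ∀ n, X * blow n ∈ 𝒞) {w n : ℕ} {c : ℤ →₀ ℤ} (box : InBox w n c)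
    (nz : ∃ x, c x + c (n - x) ≠ 0)
    (hc : CombInvar D 𝒞 n c) :
    ∀ X ∈ 𝒞, ∀ Y ∈ 𝒞, D.deq X Y → D.dim X ≤ w → ∀ i, D.cyc X i = D.cyc Y i := by
  intro X hX Y hY hXY hw i
  have hd := h.deq_dim X Y hXY
  have hn : w + w ≤ n := by
    obtain ⟨x, hx⟩ := nz
    rcases eq_or_ne (c x) 0 with h1 | h1
    · have h2 : c (n - x) ≠ 0 := fun h2 => hx (by rw [h1, h2, add_zero])
      have := box _ h2
      omega
    · have := box _ h1
      omega
  obtain ⟨T, hT⟩ : ∃ T, D.dim X + T = n := ⟨n - D.dim X, by omega⟩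
  have hT' : ((D.dim X : ℤ) + T) = n := by exact_mod_cast hT
  have key := core (ranks D X - ranks D Y) (D.dim X) T (fun x => by
      change (D.cyc X x : ℤ) - D.cyc Y x = (D.cyc X (D.dim X - x) : ℤ) - D.cyc Y (D.dim X - x)
      rw [h.dual X x, h.dual Y x, hd]) (fun x hx => by
      change (D.cyc X x : ℤ) - D.cyc Y x = 0
      rw [h.neg X x hx, h.neg Y x hx, sub_self]) c (by
      rw [hT']
      intro x hx
      have := box x hx
      omega) (by rw [hT']; exact nz) (fun j k hjk => by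
      have h1 := hc (X * line ^ j * blow 0 ^ k) (mem_prod hl hb hX j k)
        (Y * line ^ j * blow 0 ^ k) (mem_prod hl hb hY j k)
        (h.deq_mul _ _ _ (h.deq_mul _ _ _ hXY)) (by rw [dim_prod h]; omega)
      rw [comb_eq, comb_eq, ranks_prod h, ranks_prod h] at h1
      rw [map_sub, map_sub, h1, sub_self]) i
  change (D.cyc X i : ℤ) - D.cyc Y i = 0 at key
  omega

/-- A combination which is invariant up to `o(b)`. -/
lemma comb_approx (h : IsMotives D line blow) {𝒞 : Set V} (hl : ∀ X ∈ 𝒞, X * line ∈ 𝒞)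
    (hb : ∀ X ∈ 𝒞, ∀ n, X * blow n ∈ 𝒞) {w n : ℕ} {c : ℤ →₀ ℤ} (box : InBox (w + 1 : ℕ) n c)
    (nz : ∃ x, c x + c (n - x) ≠ 0) (hc : CombApprox D 𝒞 n c) :
    ∀ X ∈ 𝒞, ∀ Y ∈ 𝒞, D.deq X Y → D.dim X ≤ w → ∀ i, D.cyc X i = D.cyc Y i := by
  have hn : (w + 1) + (w + 1) ≤ n := by
    obtain ⟨x, hx⟩ := nz
    rcases eq_or_ne (c x) 0 with h1 | h1
    · have h2 : c (n - x) ≠ 0 := fun h2 => hx (by rw [h1, h2, add_zero])
      have := box _ h2
      push_cast at this
      omega
    · have := box _ h1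
      push_cast at this
      omega
  obtain ⟨m, rfl⟩ : ∃ m, n = m + 2 := ⟨n - 2, by omega⟩
  -- the shifted combination
  have inj : Function.Injective (fun x : ℤ => x - 1) := fun x y hxy => by
    simp only at hxy; omega
  have c'a : ∀ x, (c.mapDomain fun x => x - 1) x = c (x + 1) := by
    intro x
    have := Finsupp.mapDomain_apply inj c (x + 1)
    simp only [add_sub_cancel_right] at this
    exact this
  have c'l : ∀ f : ℤ → ℤ, lin (c.mapDomain fun x => x - 1) f = lin c (shift f) := by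
    intro f
    rw [lin_apply, lin_apply, Finsupp.sum_mapDomain_index (by simp) (by intro x y z; ring)]
    rfl
  refine comb_exact h hl hb (w := w) (n := m) (c := c.mapDomain fun x => x - 1) ?_ ?_ ?_
  · intro x hx
    rw [c'a] at hx
    have := box _ hx
    push_cast at this
    omega
  · obtain ⟨x, hx⟩ := nz
    refine ⟨x - 1, ?_⟩
    rw [c'a, c'a, sub_add_cancel]
    have e1 : (m : ℤ) - (x - 1) + 1 = ((m + 2 : ℕ) : ℤ) - x := by push_cast; ring
    rw [e1]
    exact hx
  · intro X hX Y hY hXY hd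
    rw [comb_eq, comb_eq, c'l, c'l]
    have key := IH.zero_of_lin
      ((lin c (ranks D X) - lin c (ranks D Y)) +
        (lin c (shift (ranks D X)) - lin c (shift (ranks D Y))) +
        (lin c (shift (shift (ranks D X))) - lin c (shift (shift (ranks D Y)))))
      (lin c (shift (ranks D X)) - lin c (shift (ranks D Y))) (3 * D.b X) (D.b X) (by
        intro ε hε
        obtain ⟨K, hK⟩ := hc ε hε
        refine ⟨K, fun g => ?_⟩
        have h1 := hK (X * blow g) (hb X hX g) (Y * blow g) (hb Y hY g) (h.deq_mul _ _ _ hXY)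
          (by rw [h.dim_mul, h.blow_dim, hd])
        rw [comb_eq, comb_eq, ranks_blow h, ranks_blow h, map_add, map_add, map_add, map_add,
          map_zsmul, map_zsmul, h.blow_b] at h1
        have e1 : lin c (ranks D X) - lin c (ranks D Y) +
            (lin c (shift (ranks D X)) - lin c (shift (ranks D Y))) +
            (lin c (shift (shift (ranks D X))) - lin c (shift (shift (ranks D Y)))) +
            g * (lin c (shift (ranks D X)) - lin c (shift (ranks D Y))) =
            lin c (ranks D X) + ((g : ℤ) + 1) • lin c (shift (ranks D X)) +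
              lin c (shift (shift (ranks D X))) -
            (lin c (ranks D Y) + ((g : ℤ) + 1) • lin c (shift (ranks D Y)) +
              lin c (shift (shift (ranks D Y)))) := by
          simp only [smul_eq_mul]
          ring
        rw [e1]
        refine h1.trans (le_of_eq ?_)
        push_cast
        ring)
    omega

end Pool.Agent.Helper13.MR
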