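import Pool.Agent.Helper13.MR.Geo
import Pool.Agent.Helper13.IH.Geo2

/-!
# Polynomials in the ranks of the groups of cycles
-/

set_option autoImplicit false

open CategoryTheory CategoryTheory.Limits AddMonoidAlgebra Pool.Agent.Q148.HN
open Pool.Agent.Helper13.IH (Adm Om ev Sy coeff_mon' adm_corner poly_core)

namespace Pool.Agent.Helper13.MR

universe v₁ u₁ v₂ u₂

variable {V : Type} [CommMonoid V] {C : Type u₁} [Category.{v₁} C] [Preadditive C]
  {N : Type u₂} [Category.{v₂} N] [Preadditive N] [Linear ℚ N] [HasBinaryBiproducts N]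

/-- The motive of `Z`, of dimension `e`, is the sum of `t x` copies of `L^x` for all `x`. -/
def HasTate (D : MotiveData V C N) (Z : V) (e : ℕ) (t : ℤ → ℕ) : Prop :=
  D.dim Z = e ∧ ∀ W i, D.cyc (W * Z) i = ∑ j ∈ Finset.range (D.dim W + 1), D.cyc W j * t (i - j)

/-- For all `e` and `m ≥ 1` every table `a_0, …, a_e` of integers with `a_0 = 1` and `a_x = a_(e-x)` is
congruent modulo `m` to the table of a variety of dimension `e` whose motive is a sum of powers of the
Lefschetz motive (for instance a projective space blown up along disjoint linear subspaces). -/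
def TateTables (D : MotiveData V C N) : Prop :=
  ∀ (e m : ℕ) (a : ℤ → ℤ), 0 < m → a 0 = 1 → (∀ x, a x = a (e - x)) → (∀ x, x < 0 → a x = 0) →
    ∃ Z t, HasTate D Z e t ∧ ∀ x, (t x : ℤ) ≡ a x [ZMOD m]

/-- The value of the polynomial `f` at the ranks of `W`: the variable with the index `x` is replaced by
`rank N^x(W)`. -/
noncomputable def rankVal (D : MotiveData V C N) (f : MvPolynomial ℤ ℤ) (W : V) : ℤ :=
  MvPolynomial.eval (fun x => (D.cyc W x : ℤ)) f

variable {D : MotiveData V C N} {line : V} {blow : ℕ → V}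

lemma eval_congr (f : MvPolynomial ℤ ℤ) {u v : ℤ → ℤ} {m : ℤ} (h : ∀ w, m ∣ u w - v w) :
    m ∣ MvPolynomial.eval u f - MvPolynomial.eval v f := by
  induction f using MvPolynomial.induction_on with
  | C a => simp
  | add p q hp hq =>
    rw [map_add, map_add, add_sub_add_comm]
    exact dvd_add hp hq
  | mul_X p j hp =>
    rw [map_mul, map_mul, MvPolynomial.eval_X, MvPolynomial.eval_X]
    have e1 : ∀ a b x y : ℤ, a * x - b * y = (a - b) * x + b * (x - y) := by intros; ring
    rw [e1]
    exact dvd_add (Dvd.dvd.mul_right hp _) (Dvd.dvd.mul_left (h j) _)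

lemma eval_local (f : MvPolynomial ℤ ℤ) {u v : ℤ → ℤ} (h : ∀ w ∈ f.vars, u w = v w) :
    MvPolynomial.eval u f = MvPolynomial.eval v f := by
  rw [MvPolynomial.eval_eq, MvPolynomial.eval_eq]
  refine Finset.sum_congr rfl fun m hm => ?_
  congr 1
  refine Finset.prod_congr rfl fun w hw => ?_
  rw [h w (MvPolynomial.mem_vars w |>.mpr ⟨m, hm, hw⟩)]

/-- The diagonal. -/
def dg (x : ℤ) : ℤ × ℤ := (x, x)

lemma dg_inj : Function.Injective dg := fun x y h => (Prod.mk.injEq _ _ _ _ ▸ h).1

lemma ev_dg (f : MvPolynomial ℤ ℤ) (P : Lau) :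
    ev (MvPolynomial.rename dg f) P = MvPolynomial.eval (fun x => P.coeff (x, x)) f := by
  unfold ev
  rw [MvPolynomial.eval_rename]
  rfl

/-- The polynomial of the ranks of `X`. -/
noncomputable def rp (D : MotiveData V C N) (X : V) : Lau :=
  ∑ i ∈ Finset.range (D.dim X + 1), (D.cyc X i : ℤ) • mon (i : ℤ) (i : ℤ)

lemma coeff_sum' {ι : Type*} (s : Finset ι) (g : ι → Lau) (p q : ℤ) :
    (∑ i ∈ s, g i).coeff (p, q) = ∑ i ∈ s, (g i).coeff (p, q) := by
  classical
  induction s using Finset.induction_on with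
  | empty => rfl
  | insert a s ha ih => rw [Finset.sum_insert ha, Finset.sum_insert ha, coeff_add', ih]

lemma coeff_rp (h : IsMotives D line blow) (X : V) (p q : ℤ) :
    (rp D X).coeff (p, q) = if p = q then (D.cyc X p : ℤ) else 0 := by
  unfold rp
  rw [coeff_sum']
  have e1 : ∀ i ∈ Finset.range (D.dim X + 1), ((D.cyc X i : ℤ) • mon (i : ℤ) (i : ℤ)).coeff (p, q) =
      if ((i : ℤ), (i : ℤ)) = (p, q) then (D.cyc X i : ℤ) else 0 := by
    intro i _
    rw [coeff_smul, Finsupp.smul_apply, coeff_mon']
    split_ifs <;> simp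
  rw [Finset.sum_congr rfl e1]
  simp only [Prod.mk.injEq]
  split_ifs with hpq
  · subst hpq
    by_cases hp : 0 ≤ p ∧ p ≤ D.dim X
    · obtain ⟨n, rfl⟩ : ∃ n : ℕ, p = n := ⟨p.toNat, by omega⟩
      rw [Finset.sum_eq_single n]
      · simp
      · intro b _ hb
        rw [if_neg (by omega)]
      · intro hn
        rw [Finset.mem_range] at hn
        omega
    · have h0 : D.cyc X p = 0 := by
        rcases lt_or_ge p 0 with h1 | h1
        · exact h.neg X p h1
        · rw [h.dual X p]
          exact h.neg X _ (by omega)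
      rw [h0]
      refine Finset.sum_eq_zero fun i hi => ?_
      rw [Finset.mem_range] at hi
      rw [if_neg (by omega)]
  · refine Finset.sum_eq_zero fun i _ => ?_
    rw [if_neg (by omega)]

lemma adm_rp (h : IsMotives D line blow) (X : V) : Adm (D.dim X) (rp D X) where
  sy := ⟨fun p q => by
      rw [coeff_rp h, coeff_rp h]
      by_cases hpq : p = q
      · rw [if_pos hpq, if_pos hpq.symm, hpq]
      · rw [if_neg hpq, if_neg (Ne.symm hpq)], fun p q => by
      rw [coeff_rp h, coeff_rp h]
      by_cases hpq : p = q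
      · rw [if_pos hpq, if_pos (by rw [hpq]), h.dual]
      · rw [if_neg hpq, if_neg (by omega)]⟩
  supp p q hpq := by
    rw [coeff_rp h] at hpq
    split_ifs at hpq with h1
    · subst h1
      have h2 : 0 ≤ p := by
        by_contra h3
        exact hpq (by rw [h.neg X p (by omega)]; rfl)
      have h3 : p ≤ D.dim X := by
        by_contra h3
        exact hpq (by rw [h.dual, h.neg X _ (by omega)]; rfl)
      exact ⟨h2, h3, h2, h3⟩
    · exact absurd rfl hpq

lemma coeff_rp_mul (X : V) (A : Lau) (x : ℤ) : (rp D X * A).coeff (x, x) =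
    ∑ i ∈ Finset.range (D.dim X + 1), (D.cyc X i : ℤ) * A.coeff (x - i, x - i) := by
  unfold rp
  rw [Finset.sum_mul, coeff_sum']
  refine Finset.sum_congr rfl fun i _ => ?_
  rw [smul_mul_assoc, coeff_smul, Finsupp.smul_apply, mul_comm (mon _ _) A, coeff_mon]
  rfl

/-- The codimension `x` is interior in dimension `n`, with margin `w`. -/
def Interior (w n : ℕ) (x : ℤ) : Prop := w < x ∧ x + w < n ∧ n ≤ 2 * x

/-- From products with varieties to products with all symmetric tables. -/
lemma inv_all (h : IsMotives D line blow) (tt : TateTables D) {X Y : V} (hd : D.dim X = D.dim Y)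
    {T : ℕ} {f : MvPolynomial ℤ ℤ} (hf : ∀ x ∈ f.vars, Interior (D.dim X) (D.dim X + T) x)
    (hZ : ∀ Z t, HasTate D Z T t → rankVal D f (X * Z) = rankVal D f (Y * Z)) (A : Lau)
    (hA : Adm T A) :
    ev (MvPolynomial.rename dg f) (rp D X * A) = ev (MvPolynomial.rename dg f) (rp D Y * A) := by
  rw [ev_dg, ev_dg]
  -- tables with the entry `1` at `(0, 0)`
  have h1 : ∀ A : Lau, Adm T A → A.coeff (0, 0) = 1 →
      MvPolynomial.eval (fun x => (rp D X * A).coeff (x, x)) f =
        MvPolynomial.eval (fun x => (rp D Y * A).coeff (x, x)) f := by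
    intro A hA hA1
    have h2 : ∀ m : ℕ, 0 < m → (m : ℤ) ∣ MvPolynomial.eval (fun x => (rp D X * A).coeff (x, x)) f -
        MvPolynomial.eval (fun x => (rp D Y * A).coeff (x, x)) f := by
      intro m hm
      obtain ⟨Z, t, hZt, ht⟩ := tt T m (fun x => A.coeff (x, x)) hm hA1
        (fun x => hA.sy.serre x x) (fun x hx => by
          by_contra h3
          have := hA.supp x x h3
          omega)
      have h4 : ∀ W : V, (m : ℤ) ∣ MvPolynomial.eval (fun x => (rp D W * A).coeff (x, x)) f -
          rankVal D f (W * Z) := by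
        intro W
        unfold rankVal
        refine eval_congr f fun x => ?_
        rw [coeff_rp_mul, hZt.2 W x]
        push_cast
        rw [← Finset.sum_sub_distrib]
        refine Finset.dvd_sum fun j _ => ?_
        rw [← mul_sub]
        exact Dvd.dvd.mul_left (ht (x - j)).dvd _
      have h5 := hZ Z t hZt
      have h7 := dvd_sub (h4 X) (h4 Y)
      rw [h5, sub_sub_sub_cancel_right] at h7
      exact h7
    have h3 := h2 ((MvPolynomial.eval (fun x => (rp D X * A).coeff (x, x)) f -
      MvPolynomial.eval (fun x => (rp D Y * A).coeff (x, x)) f).natAbs + 1) (Nat.succ_pos _)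
    have h4 := Int.eq_zero_of_dvd_of_natAbs_lt_natAbs h3 (by
      rw [Int.natAbs_natCast]; exact Nat.lt_succ_self _)
    exact sub_eq_zero.mp h4
  rcases Nat.eq_zero_or_pos T with hT | hT
  · refine eval_local f fun w hw => ?_
    have := hf w hw
    unfold Interior at this
    subst hT
    push_cast at this
    omega
  · have hE : Adm (T : ℤ) (mon 0 0 + mon T T) := adm_corner (by omega)
    have h2 := h1 _ (hA.add_zsmul hE (1 - A.coeff (0, 0))) (by
      rw [coeff_add', coeff_smul, Finsupp.smul_apply, coeff_add', coeff_mon', coeff_mon', if_pos rfl,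
        if_neg (by rw [Prod.mk.injEq]; omega)]
      simp)
    have key : ∀ Z : V, D.dim Z = D.dim X →
        MvPolynomial.eval (fun x => (rp D Z *
          (A + (1 - A.coeff (0, 0)) • (mon 0 0 + mon T T))).coeff (x, x)) f =
          MvPolynomial.eval (fun x => (rp D Z * A).coeff (x, x)) f := by
      intro Z hZd
      refine eval_local f fun a ha => ?_
      have hs := adm_rp h Z
      rw [hZd] at hs
      have hw := hf a ha
      unfold Interior at hw
      push_cast at hw
      have e1 : (rp D Z * (mon 0 0 + mon T T)).coeff (a, a) = 0 := by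
        rw [mul_add, coeff_add', coeff_mon, coeff_mon, hs.out (by omega), hs.out (by omega)]
        simp
      rw [mul_add, coeff_add', mul_smul_comm, coeff_smul, Finsupp.smul_apply, e1, smul_zero,
        add_zero]
    rwa [key X rfl, key Y hd.symm] at h2

/-- `f` is a nonconstant polynomial in the interior ranks, with margin `w`, of varieties of dimension
`n`. -/
def InteriorPoly (w n : ℕ) (f : MvPolynomial ℤ ℤ) : Prop :=
  (∀ x ∈ f.vars, Interior w n x) ∧ ∀ z : ℤ, f ≠ MvPolynomial.C z

/-- **Two varieties of the same dimension and polynomials in the interior ranks.** -/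
lemma poly_ranks (h : IsMotives D line blow) (h0 : ∀ X, D.cyc X 0 = 1) (tt : TateTables D) {X Y : V}
    (hd : D.dim X = D.dim Y) {w n : ℕ} (hw : D.dim X ≤ w) {f : MvPolynomial ℤ ℤ}
    (hf : InteriorPoly w n f)
    (hZ : ∀ Z e t, HasTate D Z e t → D.dim X + e = n → rankVal D f (X * Z) = rankVal D f (Y * Z)) :
    ∀ i : ℤ, D.cyc X i = D.cyc Y i := by
  classical
  have hvars : f.vars ≠ ∅ := by
    intro h1
    apply hf.2 (MvPolynomial.coeff 0 f)
    ext m
    rw [MvPolynomial.coeff_C]
    split_ifs with h2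
    · rw [← h2]
    · by_contra h3
      obtain ⟨i, hi⟩ := Finsupp.ne_iff.mp (Ne.symm h2)
      have h4 : i ∈ f.vars := MvPolynomial.mem_vars i |>.mpr
        ⟨m, MvPolynomial.mem_support_iff.mpr h3, Finsupp.mem_support_iff.mpr hi⟩
      rw [h1] at h4
      exact absurd h4 (Finset.notMem_empty i)
  obtain ⟨x0, hx0⟩ := Finset.nonempty_iff_ne_empty.mpr hvars
  have hO := hf.1 x0 hx0
  unfold Interior at hO
  obtain ⟨T, hT⟩ : ∃ T : ℕ, D.dim X + T = n := ⟨n - D.dim X, by omega⟩
  have hf' : ∀ x ∈ f.vars, Interior (D.dim X) (D.dim X + T) x := by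
    intro x hx
    have h1 := hf.1 x hx
    rw [hT]
    unfold Interior at h1 ⊢
    omega
  have hvars' : (MvPolynomial.rename dg f).vars ≠ ∅ := by
    rw [MvPolynomial.vars_def, MvPolynomial.degrees_rename_of_injective dg_inj]
    intro h1
    have h2 : dg x0 ∈ (Multiset.map dg f.degrees).toFinset := by
      rw [Multiset.mem_toFinset]
      refine Multiset.mem_map_of_mem _ ?_
      rw [MvPolynomial.vars_def, Multiset.mem_toFinset] at hx0
      exact hx0
    rw [h1] at h2
    exact absurd h2 (Finset.notMem_empty _)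
  by_contra hcon
  push Not at hcon
  obtain ⟨i, hi⟩ := hcon
  have hMX := adm_rp h X
  have hMY := adm_rp h Y
  rw [← hd] at hMY
  refine hvars' (poly_core hMX hMY (by rw [coeff_rp h, if_pos rfl, h0]; rfl)
    (by rw [coeff_rp h, if_pos rfl, h0]; rfl) ⟨i, i, ?_⟩
    ((MvPolynomial.rename dg f).support.sup Finsupp.degree) (MvPolynomial.rename dg f)
    (fun m hm => Finset.le_sup (f := Finsupp.degree) hm) (fun m hm a ha => ?_)
    fun A hA => inv_all h tt hd hf' (fun Z t hZt => hZ Z T t hZt hT) A hA)
  · rw [coeff_sub', coeff_rp h, coeff_rp h, if_pos rfl, if_pos rfl, sub_ne_zero]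
    exact_mod_cast hi
  · have h1 : a ∈ (MvPolynomial.rename dg f).vars := MvPolynomial.mem_vars a |>.mpr ⟨m, hm, ha⟩
    have h2 := MvPolynomial.vars_rename dg f h1
    obtain ⟨x, hx, rfl⟩ := Finset.mem_image.mp h2
    have h3 := hf' x hx
    unfold Interior at h3
    unfold Om dg
    push_cast at h3
    simp only
    omega

end Pool.Agent.Helper13.MR
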